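import Pool.Agent.N206.CG.Stm2

/-!
# Project CG: automorphisms permute the factors of the first level stabiliser (helper711)
-/

namespace Pool.Agent.N711.CG

open Pool.Agent.N206.CG Classical

variable {L : Loc} (S : Sys L)

/-- the elements of the factor at `y` mapped to the factor at `x` -/
noncomputable def MM (n : ℕ) (β : MulAut (S.D n)) (y x : L.E n) : Subgroup (S.D (n + 1)) :=
  ((S.lamH n x).range.comap β.toMonoidHom).comap (S.lamH n y)

theorem mem_MM {n : ℕ} {β : MulAut (S.D n)} {y x : L.E n} {g : S.D (n + 1)} :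
    g ∈ MM S n β y x ↔ ∃ u, S.lam n x u = β (S.lam n y g) := Iff.rfl

theorem conj1 (n : ℕ) (e : S.D n) (he : S.root n e = 1) (x : L.E n) (g : S.D (n + 1)) :
    e * S.lam n x g * e⁻¹ = S.lam n x (S.sec n e x * g * (S.sec n e x)⁻¹) := by
  rw [S.conj_lam, he, Equiv.Perm.one_apply]

theorem MM_normal (h1 : S_KER S) (n : ℕ) (β : MulAut (S.D n)) (y x : L.E n) :
    (MM S n β y x).Normal := by
  refine ⟨fun g hg g' => ?_⟩
  obtain ⟨u, hu⟩ := (mem_MM S).1 hg
  have hr : S.root n (β (S.lam n y g')) = 1 := h1 n β _ (S.root_lam n y g')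
  refine (mem_MM S).2 ⟨_, (conj1 S n _ hr x u).symm.trans ?_⟩
  rw [hu, ← map_inv, ← map_mul, ← map_mul, ← S.lam_inv, ← S.lam_mul, ← S.lam_mul]

theorem sec_one_of (h1 : S_KER S) (h3 : S_Z S) {n : ℕ} {β : MulAut (S.D n)} {y x : L.E n}
    (h : MM S n β y x = ⊥) (g : S.D (n + 1)) : S.sec n (β (S.lam n y g)) x = 1 := by
  have hr : S.root n (β (S.lam n y g)) = 1 := h1 n β _ (S.root_lam n y g)
  refine h3 (n + 1) _ fun u => ?_
  set e := β (S.lam n y g) with he
  obtain ⟨q, hq⟩ := β.surjective (S.lam n x u)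
  have hqr : S.root n q = 1 := by
    have := h1 n β⁻¹ (S.lam n x u) (S.root_lam n x u)
    rwa [← hq, MulAut.inv_apply_self] at this
  have e1 : q * S.lam n y g * q⁻¹ * (S.lam n y g)⁻¹ =
      S.lam n y (S.sec n q y * g * (S.sec n q y)⁻¹ * g⁻¹) := by
    rw [conj1 S n q hqr, S.lam_mul n y _ g⁻¹, S.lam_inv]
  have e2 : β (q * S.lam n y g * q⁻¹ * (S.lam n y g)⁻¹) =
      S.lam n x (u * (S.sec n e x * u⁻¹ * (S.sec n e x)⁻¹)) := by
    rw [map_mul, map_mul, map_mul, map_inv, map_inv, hq, ← he, S.lam_mul, ← conj1 S n e hr,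
      S.lam_inv]
    group
  have e3 : S.sec n q y * g * (S.sec n q y)⁻¹ * g⁻¹ ∈ MM S n β y x :=
    (mem_MM S).2 ⟨_, by rw [← e1]; exact e2.symm⟩
  rw [h, Subgroup.mem_bot] at e3
  rw [e1, e3, S.lam_one, map_one] at e2
  have e4 := S.lam_inj n x _ _ ((S.lam_one n x).trans e2)
  calc S.sec n e x * u = 1 * (S.sec n e x * u) := (one_mul _).symm
    _ = u * (S.sec n e x * u⁻¹ * (S.sec n e x)⁻¹) * (S.sec n e x * u) := by rw [← e4]
    _ = u * S.sec n e x := by group

theorem step1 (h1 : S_KER S) (h2 : S_NC S) (h3 : S_Z S) (n : ℕ) (β : MulAut (S.D n)) (y : L.E n) :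
    ∃ x, ∀ g, β (S.lam n y g) = S.lam n x (S.sec n (β (S.lam n y g)) x) := by
  have key : ∀ x, (∀ x', x' ≠ x → MM S n β y x' = ⊥) →
      ∀ g, β (S.lam n y g) = S.lam n x (S.sec n (β (S.lam n y g)) x) := by
    intro x hx g
    apply S.ext
    · rw [h1 n β _ (S.root_lam n y g), S.root_lam]
    · intro w
      rw [S.sec_lam]
      split_ifs with hw
      · rw [hw]
      · exact sec_one_of S h1 h3 (hx w hw) g
  by_cases h : ∃ x, MM S n β y x ≠ ⊥
  · obtain ⟨x, hx⟩ := h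
    refine ⟨x, key x fun x' hx' => ?_⟩
    by_contra hc
    obtain ⟨a, ha, b, hb, hab⟩ := h2 (n + 1) _ _ (MM_normal S h1 n β y x)
      (MM_normal S h1 n β y x') hx hc
    apply hab
    obtain ⟨u, hu⟩ := (mem_MM S).1 ha
    obtain ⟨v, hv⟩ := (mem_MM S).1 hb
    apply S.lam_inj n y
    rw [S.lam_mul, S.lam_mul]
    apply β.injective
    rw [map_mul, map_mul, ← hu, ← hv, S.lam_comm n x x' hx'.symm]
  · push Not at h
    exact ⟨L.z n, key _ fun x' _ => h x'⟩

theorem nontriv (n : ℕ) : ∃ g : S.D n, g ≠ 1 := by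
  obtain ⟨x, -, y, -, hxy⟩ := L.X_two n
  obtain ⟨g, hg⟩ := S.exists_rt n x y
  refine ⟨S.rt n g, fun h => hxy ?_⟩
  rw [h, map_one, Equiv.Perm.one_apply] at hg
  exact hg

theorem inv_aux (n : ℕ) (β γ : MulAut (S.D n)) (f f' : L.E n → L.E n) (hβγ : ∀ d, γ (β d) = d)
    (hf : ∀ y g, β (S.lam n y g) = S.lam n (f y) (S.sec n (β (S.lam n y g)) (f y)))
    (hf' : ∀ y g, γ (S.lam n y g) = S.lam n (f' y) (S.sec n (γ (S.lam n y g)) (f' y)))
    (y : L.E n) : f' (f y) = y := by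
  obtain ⟨g, hg⟩ := nontriv S (n + 1)
  by_contra hc
  apply hg
  have e1 := hβγ (S.lam n y g)
  rw [hf, hf'] at e1
  have e2 := congrArg (fun d => S.sec n d y) e1
  simp only [S.sec_lam_self] at e2
  rw [S.sec_lam_ne _ _ _ _ (Ne.symm hc)] at e2
  exact e2.symm

theorem t_D1 (h1 : S_KER S) (h2 : S_NC S) (h3 : S_Z S) : S_D1 S := by
  intro n α
  choose f hf using step1 S h1 h2 h3 n α
  choose f' hf' using step1 S h1 h2 h3 n α⁻¹
  have i1 : ∀ d, α⁻¹ (α d) = d := fun d => MulAut.inv_apply_self _ _ _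
  have i2 : ∀ d, α (α⁻¹ d) = d := fun d => MulAut.apply_inv_self _ _ _
  have k1 := inv_aux S n α α⁻¹ f f' i1 hf hf'
  have k2 := inv_aux S n α⁻¹ α f' f i2 hf' hf
  have key : ∃ σ a, S.ADec n α σ a := by
    refine ⟨⟨f, f', k1, k2⟩, fun y =>
      { toFun := fun g => S.sec n (α (S.lam n y g)) (f y)
        invFun := fun g => S.sec n (α⁻¹ (S.lam n (f y) g)) y
        left_inv := fun g => ?_
        right_inv := fun g => ?_
        map_mul' := fun g h => ?_ }, fun x g => hf x g⟩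
    · change S.sec n (α⁻¹ (S.lam n (f y) (S.sec n (α (S.lam n y g)) (f y)))) y = g
      rw [← hf, i1, S.sec_lam_self]
    · change S.sec n (α (S.lam n y (S.sec n (α⁻¹ (S.lam n (f y) g)) y))) (f y) = g
      have e := hf' (f y) g
      rw [k1] at e
      rw [← e, i2, S.sec_lam_self]
    · change S.sec n (α (S.lam n y (g * h))) (f y) = S.sec n (α (S.lam n y g)) (f y) *
        S.sec n (α (S.lam n y h)) (f y)
      rw [S.lam_mul, map_mul, S.sec_mul, h1 n α _ (S.root_lam n y h), Equiv.Perm.one_apply]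
  unfold Sys.sg Sys.asc
  rw [dif_pos key, dif_pos key]
  exact key.choose_spec.choose_spec

end Pool.Agent.N711.CG
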